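import Pool.Agent.H38.NP.Defs

/-!
Finite presentations, word-hyperbolic groups and Dehn presentations.
-/

namespace Pool.Agent.H38.Dehn

open Pool.Agent.H38.NP

/-- A finite presentation: generators `Fin n`, and relators, words in the generators
(`(i, true)`) and their inverses (`(i, false)`). -/
structure Pres where
  /-- number of generators -/
  n : ℕ
  /-- relators -/
  rel : List (List (Fin n × Bool))

instance encPres : Enc Pres :=
  ⟨fun P => enc (P.n, P.rel.map (List.map fun a => (a.1.val, a.2)))⟩

/-- Number of generators plus the total length of the relators. -/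
def Pres.size (P : Pres) : ℕ := P.n + (P.rel.map List.length).sum

/-- The relators as elements of the free group. -/
def Pres.rels (P : Pres) : Set (FreeGroup (Fin P.n)) := {g | ∃ r ∈ P.rel, g = FreeGroup.mk r}

/-- The presented group. -/
abbrev Pres.Grp (P : Pres) : Type := PresentedGroup P.rels

/-- The Cayley graph of the presented group for the given generators. -/
def Pres.cayley (P : Pres) : SimpleGraph P.Grp :=
  SimpleGraph.fromRel fun g h => ∃ i, h = g * PresentedGroup.of i

/-- Geodesic triangles are `δ`-thin: each vertex of a side is at distance at most `δ` from a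
vertex of one of the two other sides. -/
def Thin {V : Type} (Γ : SimpleGraph V) (δ : ℕ) : Prop :=
  ∀ (a b c : V) (p : Γ.Walk a b) (q : Γ.Walk b c) (r : Γ.Walk c a),
    p.length = Γ.dist a b → q.length = Γ.dist b c → r.length = Γ.dist c a →
      ∀ x ∈ p.support, ∃ y, (y ∈ q.support ∨ y ∈ r.support) ∧ Γ.dist x y ≤ δ

/-- The presented group is word-hyperbolic. -/
def Hyperbolic (P : Pres) : Prop := ∃ δ, Thin P.cayley δ

/-- `R*`: the cyclic permutations of the relators and of their inverses, freely reduced. -/
def Pres.star (P : Pres) : Set (List (Fin P.n × Bool)) :=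
  {s | ∃ r ∈ P.rel, ∃ k, s = FreeGroup.reduce (r.rotate k) ∨
    s = FreeGroup.reduce ((FreeGroup.invRev r).rotate k)}

/-- Dehn presentation: every nonempty reduced word for the identity contains more than half of
an element of `R*`. -/
def IsDehn (P : Pres) : Prop :=
  ∀ w : List (Fin P.n × Bool), w ≠ [] → FreeGroup.IsReduced w →
    FreeGroup.mk w ∈ Subgroup.normalClosure P.rels →
      ∃ u v, u <:+: w ∧ u ++ v ∈ P.star ∧ v.length < u.length

end Pool.Agent.H38.Dehn
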