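import Pool.Agent.H38.Dehn.Low

/-!
The short presentations of the elementary abelian 2-groups.
-/

namespace Pool.Agent.H38.Dehn

open Pool.Agent.H38.NP List

/-- the relators `e_i^2, (e_i e_j)^2` -/
def famR (n : ℕ) : List (List (Fin n × Bool)) :=
  (finRange n).map (fun i => [(i, true), (i, true)]) ++ (finRange n).flatMap fun i =>
    (finRange n).map fun j => [(i, true), (j, true), (i, true), (j, true)]

/-- `⟨e_i | e_i^2, (e_i e_j)^2⟩` -/
abbrev fam (n : ℕ) : Pres := ⟨n, famR n⟩

theorem ev_of {Q : Pres} (i : Fin Q.n) : ev Q [(i, true)] = PresentedGroup.of i := rfl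

theorem fam_two (n : ℕ) (g : (fam n).Grp) : g * g = 1 := by
  let x : Fin n → (fam n).Grp := fun i => PresentedGroup.of i
  have r : ∀ w ∈ (fam n).rel, ev (fam n) w = 1 := fun w h =>
    ev_one.2 (Subgroup.subset_normalClosure ⟨w, h, rfl⟩)
  have h1 : ∀ i, x i * x i = 1 := fun i =>
    (ev_app (Q := fam n) [(i, true)] [(i, true)]).symm.trans (r _ (by simp [famR]))
  have h2 : ∀ i j, Commute (x i) (x j) := fun i j => by
    have := r ([(i, true)] ++ [(j, true)] ++ ([(i, true)] ++ [(j, true)])) (by simp [famR])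
    rw [ev_app, ev_app] at this
    change x i * x j * (x i * x j) = 1 at this
    rw [commute_iff_eq, ← inv_eq_of_mul_eq_one_right this, mul_inv_rev,
      inv_eq_of_mul_eq_one_right (h1 i), inv_eq_of_mul_eq_one_right (h1 j)]
  have h3 : ∀ i g, Commute g (x i) := fun i g =>
    PresentedGroup.generated_by _ (Subgroup.centralizer {x i})
      (fun j => Subgroup.mem_centralizer_singleton_iff.2 (h2 j i)) g |>
        Subgroup.mem_centralizer_singleton_iff.1
  have h4 : ∀ g h : (fam n).Grp, Commute h g := fun g h =>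
    PresentedGroup.generated_by _ (Subgroup.centralizer {g})
      (fun j => Subgroup.mem_centralizer_singleton_iff.2 (h3 j g).symm) h |>
        Subgroup.mem_centralizer_singleton_iff.1
  refine PresentedGroup.generated_by _
    { carrier := {g | g * g = 1}, one_mem' := mul_one _, mul_mem' := fun {a b} ha hb => ?_,
      inv_mem' := fun {a} ha => ?_ } h1 g
  · simp only [Set.mem_ofPred_eq] at ha hb ⊢
    rw [← (h4 b a).mul_mul_mul_comm a b, ha, hb, mul_one]
  · simp only [Set.mem_ofPred_eq] at ha ⊢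
    rw [← mul_inv_rev, ha, inv_one]

theorem fam_card (n : ℕ) : 2 ^ n ≤ Nat.card (fam n).Grp := by
  have := fin2 (fam_two n)
  let f : Fin n → Fin n → ℤˣ := fun i => Pi.mulSingle i (-1)
  have h : ∀ r ∈ (fam n).rels, FreeGroup.lift f r = 1 := by
    rintro _ ⟨w, hw, rfl⟩
    simp only [famR, mem_append, mem_map, mem_flatMap] at hw
    obtain ⟨i, -, rfl⟩ | ⟨i, -, j, -, rfl⟩ := hw <;> ext k <;> simp [Int.units_mul_self]
    rw [← mul_assoc, ← Units.val_mul, ← Units.val_mul, Int.units_mul_self, Units.val_one]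
  have hs : Function.Surjective (PresentedGroup.toGroup h) := fun g => by
    rw [← MonoidHom.mem_range, ← Finset.univ_prod_mulSingle g]
    refine Subgroup.prod_mem _ fun i _ => ?_
    rcases Int.units_eq_one_or (g i) with e | e <;> rw [e]
    · simp
    · exact ⟨_, PresentedGroup.toGroup.of h⟩
  simpa using Nat.card_le_card_of_surjective _ hs

theorem fam_hyp (n : ℕ) : Hyperbolic (fam n) := by
  have := fin2 (fam_two n)
  obtain ⟨δ, h⟩ := (Set.finite_range fun p : (fam n).Grp × (fam n).Grp =>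
    (fam n).cayley.dist p.1 p.2).bddAbove
  exact ⟨δ, fun a b c p q r _ _ _ x _ => ⟨b, .inl q.start_mem_support, h ⟨(x, b), rfl⟩⟩⟩

theorem poly_le (p : Polynomial ℕ) (a : ℕ) :
    ∃ c, ∀ j, 1 ≤ j → ∀ x ≤ 2 ^ (a * j), p.eval x ≤ 2 ^ (c * j) := by
  induction p using Polynomial.induction_on' with
  | add p q hp hq =>
    obtain ⟨c, hp⟩ := hp
    obtain ⟨d, hq⟩ := hq
    refine ⟨c + d + 1, fun j hj x hx => ?_⟩
    have h1 : 2 ^ (c * j) ≤ 2 ^ ((c + d) * j) := Nat.pow_le_pow_right two_pos (by nlinarith)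
    have h2 : 2 ^ (d * j) ≤ 2 ^ ((c + d) * j) := Nat.pow_le_pow_right two_pos (by nlinarith)
    have h3 : 2 ^ ((c + d) * j + 1) ≤ 2 ^ ((c + d + 1) * j) :=
      Nat.pow_le_pow_right two_pos (by nlinarith)
    have := hp j hj x hx
    have := hq j hj x hx
    rw [pow_succ] at h3
    rw [Polynomial.eval_add]; omega
  | monomial k b =>
    refine ⟨b + a * k, fun j hj x hx => ?_⟩
    rw [Polynomial.eval_monomial, add_mul, pow_add, mul_right_comm, pow_mul 2 (a * j)]
    exact Nat.mul_le_mul (Nat.lt_two_pow_self.le.trans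
      (Nat.pow_le_pow_right two_pos (Nat.le_mul_of_pos_right _ hj))) (Nat.pow_le_pow_left hx _)

theorem main (p : Polynomial ℕ) : ∃ n, 1 ≤ n ∧ ∀ Q : Pres, Nonempty ((fam n).Grp ≃* Q.Grp) →
    IsDehn Q → p.eval n < Q.size := by
  obtain ⟨c, hc⟩ := poly_le p 1
  refine ⟨2 ^ (4 * (4 * (c + 1))), Nat.one_le_two_pow, fun Q ⟨e⟩ hD => ?_⟩
  refine (hc (4 * (4 * (c + 1))) (by omega) _ (by rw [one_mul])).trans_lt
    (size_low (fun g => ?_) hD ?_)
  · obtain ⟨g, rfl⟩ := e.surjective g
    rw [← map_mul, fam_two, map_one]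
  · rw [← Nat.card_congr e.toEquiv]
    refine lt_of_lt_of_le (Nat.pow_lt_pow_right one_lt_two ?_) (fam_card _)
    rw [mul_comm 4, pow_mul]
    refine lt_of_le_of_lt ?_ (Nat.pow_lt_pow_left Nat.lt_two_pow_self (by omega))
    have : c * (4 * (c + 1) * 4) + 3 ≤ (4 * (c + 1)) ^ 2 := by nlinarith
    rw [show (4 * (c + 1)) ^ 4 = (4 * (c + 1)) ^ 2 * (4 * (c + 1)) ^ 2 by ring]
    exact Nat.mul_le_mul (by omega) this

theorem fam_size (n : ℕ) : (fam n).size = 3 * n + 4 * n ^ 2 := by
  simp [famR, Pres.size, map_flatMap, Function.comp_def, flatMap, sum_flatten]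
  ring

theorem size_le (Q : Pres) : Q.size ≤ (enc Q).length := by
  change _ ≤ sz (Q.n, Q.rel.map (List.map fun a => (a.1.val, a.2)))
  rw [sz_prod, sz_nat, Pres.size]
  have : ∀ l : List (List (Fin Q.n × Bool)),
      (l.map length).sum ≤ sz (l.map (List.map fun a => (a.1.val, a.2))) := fun l => by
    induction l with
    | nil => simp
    | cons r l ih =>
      have := length_le_sz (r.map fun a => (a.1.val, a.2))
      rw [map_cons, map_cons, sz_cons, sum_cons]
      rw [length_map] at this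
      omega
  have := this Q.rel
  simp only
  omega

theorem pt_fam : PT fam := by
  have : PT fun n : ℕ => (n, (range n).map (fun i => [(i, true), (i, true)]) ++
      (range n).flatMap fun i =>
        (range n).map fun j => [(i, true), (j, true), (i, true), (j, true)]) := by fun_prop
  refine this.recast' fun n => ?_
  change _ = enc (n, (famR n).map (List.map fun a => (a.1.val, a.2)))
  congr 2
  simp [famR, ← map_coe_finRange_eq_range, map_flatMap, flatMap_map, Function.comp_def]

theorem no_alg : ¬ ∃ f, PolyTime f ∧ ∀ P : Pres, Hyperbolic P →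
    ∃ Q : Pres, f (enc P) = enc Q ∧ Nonempty (P.Grp ≃* Q.Grp) ∧ IsDehn Q := by
  rintro ⟨f, hf, h⟩
  obtain ⟨p, q, e⟩ := (H36.Sim.pt_of_polyTime hf).comp pt_fam.raw
  obtain ⟨n, -, hn⟩ := main (Polynomial.X + q)
  obtain ⟨Q, h1, h2, h3⟩ := h _ (fam_hyp n)
  have h4 := (e n).len
  have h5 := hn Q h2 h3
  have h6 := size_le Q
  rw [← h1] at h6
  simp [raw] at h4 h5
  omega

end Pool.Agent.H38.Dehn
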