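import Pool.Agent.H38.Dehn.Defs
import Pool.Agent.H36.Sim

/-!
Every Dehn presentation of an elementary abelian 2-group of rank `n` has superpolynomial size.
-/

namespace Pool.Agent.H38.Dehn

open Pool.Agent.H38.NP List

variable {Q : Pres}

/-- value of a word -/
def ev (Q : Pres) (w : List (Fin Q.n × Bool)) : Q.Grp := PresentedGroup.mk _ (FreeGroup.mk w)

theorem ev_app (u v) : ev Q (u ++ v) = ev Q u * ev Q v := by
  simp [ev, ← FreeGroup.mul_mk]

theorem ev_nil : ev Q [] = 1 := by simp [ev, ← FreeGroup.one_eq_mk]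

theorem ev_inv (u) : ev Q (FreeGroup.invRev u) = (ev Q u)⁻¹ := by
  simp [ev, ← FreeGroup.inv_mk]

theorem ev_one {w} : ev Q w = 1 ↔ FreeGroup.mk w ∈ Subgroup.normalClosure Q.rels :=
  PresentedGroup.mk_eq_one_iff

theorem ev_surj (g : Q.Grp) : ∃ w, ev Q w = g := by
  obtain ⟨x, rfl⟩ := PresentedGroup.mk_surjective _ g
  exact ⟨x.toWord, by rw [ev, FreeGroup.mk_toWord]⟩

theorem ev_rot {w} (h : ev Q w = 1) (k : ℕ) : ev Q (w.rotate k) = 1 := by
  rw [rotate_eq_drop_append_take_mod, ev_app, mul_eq_one_comm, ← ev_app, take_append_drop, h]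

theorem ev_star {s} (h : s ∈ Q.star) : ev Q s = 1 := by
  obtain ⟨r, hr, k, h⟩ := h
  have h1 : ev Q r = 1 := ev_one.2 (Subgroup.subset_normalClosure ⟨r, hr, rfl⟩)
  have h2 : ∀ w, ev Q (FreeGroup.reduce w) = ev Q w := fun w => by
    rw [ev, ev, FreeGroup.reduce.self]
  rcases h with rfl | rfl <;> rw [h2] <;> refine ev_rot ?_ k
  · exact h1
  · rw [ev_inv, h1, inv_one]

/-- geodesic word -/
def Geo (Q : Pres) (w : List (Fin Q.n × Bool)) : Prop :=
  ∀ w', ev Q w' = ev Q w → w.length ≤ w'.length

theorem geo_ex (g : Q.Grp) : ∃ w, ev Q w = g ∧ Geo Q w := by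
  classical
  have h : ∃ k, ∃ w, ev Q w = g ∧ w.length = k := let ⟨w, h⟩ := ev_surj g; ⟨_, w, h, rfl⟩
  obtain ⟨w, h1, h2⟩ := Nat.find_spec h
  exact ⟨w, h1, fun w' e => h2 ▸ Nat.find_min' h ⟨w', e.trans h1, rfl⟩⟩

section two
variable (h2 : ∀ g : Q.Grp, g * g = 1)
include h2

theorem comm2 (a b : Q.Grp) : a * b = b * a := by
  have i : ∀ g : Q.Grp, g⁻¹ = g := fun g => inv_eq_of_mul_eq_one_right (h2 g)
  rw [← i (a * b), mul_inv_rev, i, i]

theorem ev_perm {u v} (h : u ~ v) : ev Q u = ev Q v := by
  induction h with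
  | nil => rfl
  | cons a _ ih => exact (ev_app [a] _).trans (ih ▸ (ev_app [a] _).symm)
  | swap a b l =>
    have e : ∀ a b, ev Q (a :: b :: l) = ev Q [a] * ev Q [b] * ev Q l := fun a b => by
      rw [← ev_app, ← ev_app]; rfl
    rw [e, e, comm2 h2 (ev Q [a])]
  | trans _ _ h1 h3 => exact h1.trans h3

theorem Geo.sub {u w} (hw : Geo Q w) (h : u <+~ w) : Geo Q u := fun u' e => by
  obtain ⟨l, h1, h3⟩ := h
  obtain ⟨t, ht⟩ := h3.exists_perm_append
  have := hw (u' ++ t) (by rw [ev_app, e, ev_perm h2 ht, ev_app, ev_perm h2 h1])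
  rw [ht.length_eq, length_append, length_append, h1.length_eq] at this
  omega

theorem Geo.nodup {w} (hw : Geo Q w) : w.Nodup := by
  refine nodup_iff_sublist.2 fun a h => ?_
  have := hw.sub h2 h.subperm [] (by
    rw [ev_nil, show [a, a] = [a] ++ [a] from rfl, ev_app, h2])
  simp at this

theorem fin2 : Finite Q.Grp :=
  Finite.of_surjective (fun w : {l : List (Fin Q.n × Bool) // l.Nodup} => ev Q w.1) fun g =>
    let ⟨w, h, hw⟩ := geo_ex g; ⟨⟨w, hw.nodup h2⟩, h⟩

omit h2 in
theorem inf_cases {α : Type} {u l : List α} (h : u <:+: l ++ l) :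
    (u.length ≤ l.length → u <+~ l) ∧
      (l.length ≤ u.length → ∃ k ≤ l.length, u.take l.length = l.rotate k) := by
  obtain ⟨a, b, e⟩ := h
  have e1 : u ++ b = (l ++ l).drop a.length := by rw [← e]; simp
  have e2 := congrArg length e
  simp only [length_append] at e2
  have e3 : a.length ≤ l.length → (u ++ b).take l.length = l.rotate a.length := fun h => by
    rw [e1, drop_append_of_le_length h, rotate_eq_drop_append_take h, take_append,
      take_of_length_le (by simp)]
    congr 2; simp; omega
  refine ⟨fun h => ?_, fun h => ⟨a.length, by omega, ?_⟩⟩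
  · rcases le_total a.length l.length with h1 | h1
    · refine Subperm.trans (Sublist.subperm ?_) (rotate_perm l a.length).subperm
      rw [← e3 h1, take_append, take_of_length_le h]
      exact sublist_append_left _ _
    · rw [drop_append, drop_of_length_le h1, nil_append] at e1
      exact ((sublist_append_left u b).trans (e1 ▸ drop_sublist _ _)).subperm
  · rw [← e3 (by omega), take_append_of_le_length h]

/-- the elements of `R*` as a list -/
def starL (Q : Pres) : List (List (Fin Q.n × Bool)) :=
  Q.rel.flatMap fun r => (range r.length).flatMap fun k =>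
    [FreeGroup.reduce (r.rotate k), FreeGroup.reduce ((FreeGroup.invRev r).rotate k)]

omit h2 in
theorem starL_len : (starL Q).length ≤ 2 * Q.size := by
  have : (starL Q).length = 2 * (Q.rel.map length).sum := by
    simp only [starL, length_flatMap, length_cons, length_nil, map_const', length_range,
      sum_replicate, smul_eq_mul, sum_map_mul_right]
    rw [mul_comm]
  rw [this, Pres.size]; omega

omit h2 in
theorem mem_starL {s} (h : s ∈ Q.star) (h0 : s ≠ []) : s ∈ starL Q := by
  obtain ⟨r, hr, k, h⟩ := h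
  have h1 : r ≠ [] := by rintro rfl; simp at h; exact h0 h
  simp only [starL, mem_flatMap, mem_range, mem_cons, not_mem_nil, or_false]
  refine ⟨r, hr, k % r.length, Nat.mod_lt _ (length_pos_iff.2 h1), ?_⟩
  rwa [rotate_mod, ← FreeGroup.invRev_length (L₁ := r), rotate_mod]

theorem fact_le (hD : IsDehn Q) {w} (hw : Geo Q w) (h1 : 2 ≤ w.length) :
    w.length.factorial ≤ 2 * Q.size * (w.length + 1) := by
  classical
  have key : w.permutations.toFinset ⊆ ((starL Q).toFinset ×ˢ Finset.range (w.length + 1)).image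
      fun p => (p.1.take w.length).rotate p.2 := fun l hl => by
    have hp : l ~ w := by simpa using hl
    have hl := hw.sub h2 hp.subperm
    rw [← hp.length_eq] at h1 ⊢
    obtain ⟨u, v, h3, h4, h5⟩ := hD (l ++ l) (by rintro h; simp at h; simp [h] at h1)
      (isChain_iff_forall_rel_of_append_cons_cons.2 fun a b l₁ l₂ e hab => by
        by_contra hne
        have := hl.sub h2 ((inf_cases (u := [a, b]) ⟨l₁, l₂, by simp [e]⟩).1 h1) [] (by
          obtain ⟨a, x⟩ := a; obtain ⟨b, y⟩ := b
          obtain rfl : a = b := hab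
          obtain rfl : y = !x := by revert hne; cases x <;> cases y <;> simp
          rw [ev_nil, show [(a, x), (a, !x)] = [(a, x)] ++ FreeGroup.invRev [(a, x)] from rfl,
            ev_app, ev_inv, mul_inv_cancel])
        simp at this)
      (ev_one.1 (by rw [ev_app, h2]))
    have h6 : l.length ≤ u.length := by
      by_contra h
      have := hl.sub h2 ((inf_cases h3).1 (by omega)) (FreeGroup.invRev v) (by
        rw [ev_inv]; exact inv_eq_of_mul_eq_one_left (by rw [← ev_app, ev_star h4]))
      rw [FreeGroup.invRev_length] at this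
      omega
    obtain ⟨k, hk, e⟩ := (inf_cases h3).2 h6
    refine Finset.mem_image.2 ⟨(u ++ v, l.length - k), ?_, ?_⟩
    · simp only [Finset.mem_product, mem_toFinset, Finset.mem_range]
      exact ⟨mem_starL h4 (by rintro h; simp at h; simp [h] at h5), by omega⟩
    · simp only
      rw [take_append_of_le_length h6, e, rotate_rotate, Nat.add_sub_cancel' hk, rotate_length]
  have := (Finset.card_le_card key).trans Finset.card_image_le
  rw [toFinset_card_of_nodup (nodup_permutations _ (hw.nodup h2)), length_permutations,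
    Finset.card_product, Finset.card_range] at this
  exact this.trans (Nat.mul_le_mul_right _ ((toFinset_card_le _).trans starL_len))

theorem long_geo {D : ℕ} (h : (2 * Q.n + 1) ^ D < Nat.card Q.Grp) :
    ∃ w, Geo Q w ∧ w.length = D + 1 := by
  have : ¬ Function.Surjective fun f : Fin D → Option (Fin Q.n × Bool) =>
      ev Q (ofFn f).reduceOption := fun hs => by
    have := Nat.card_le_card_of_surjective _ hs
    simp [mul_comm Q.n] at this
    omega
  obtain ⟨g, hg⟩ := not_forall.1 this
  obtain ⟨w, rfl, hw⟩ := geo_ex g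
  refine ⟨w.take (D + 1), hw.sub h2 (take_sublist _ _).subperm, length_take_of_le ?_⟩
  by_contra hl
  refine hg ⟨fun i => w[i.val]?, ?_⟩
  simp only
  congr 1
  have : ∀ (D : ℕ) (w : List (Fin Q.n × Bool)), w.length ≤ D →
      (ofFn fun i : Fin D => w[i.val]?).reduceOption = w := by
    intro D
    induction D with
    | zero => intro w h; simpa using h
    | succ D ih =>
      rintro (_ | ⟨a, w⟩) h
      · simp
      · simpa [ofFn_succ] using ih w (by simpa using h)
  exact this D w (by omega)

theorem size_low (hD : IsDehn Q) {t : ℕ} (h : 2 ^ ((t + 2) * (t + 3)) < Nat.card Q.Grp) :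
    2 ^ t < Q.size := by
  by_contra hs
  obtain ⟨w, hw, e⟩ := long_geo h2 (D := t + 3) (lt_of_le_of_lt (by
    rw [pow_mul]
    refine Nat.pow_le_pow_left ?_ _
    have : Q.n ≤ Q.size := Nat.le_add_right _ _
    have := Nat.one_le_two_pow (n := t)
    rw [pow_add]; omega) h)
  have h3 := fact_le h2 hD hw (by omega)
  have h4 : ∀ t, 2 ^ (t + 1) ≤ (t + 2).factorial := fun t => by
    induction t with
    | zero => simp
    | succ t ih => rw [Nat.factorial_succ, pow_succ]; nlinarith
  rw [e, Nat.factorial_succ, Nat.factorial_succ] at h3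
  have h5 := h4 t
  rw [pow_succ] at h5
  have h6 : 0 < 2 ^ t := by positivity
  generalize 2 ^ t = x at *
  generalize (t + 2).factorial = y at *
  have h7 : 2 * Q.size * (t + 3 + 1 + 1) ≤ y * (t + 5) := Nat.mul_le_mul_right _ (by omega)
  have h8 : 0 < y := by omega
  nlinarith [Nat.zero_le (t * y), Nat.zero_le (t * t * y)]

end two

end Pool.Agent.H38.Dehn
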